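import Pool.Agent.Y157.PS.Stm3
import Pool.Agent.Y157.PS.Tools

/-!
# Inertia acts trivially on the maximal unramified geometrically pro-`ℓ` extension

(job PS-INRT of helper157)
-/

set_option autoImplicit false
set_option linter.all false

open Polynomial FF

namespace Pool.Agent.Y529.PS.IN

open Pool.Agent.Y157.PS

section gen

variable {k F Ω : Type} [Field k] [Field F] [Field Ω] [Algebra k F] [Algebra F Ω]
  [Algebra k Ω] [IsScalarTower k F Ω]

theorem int_mem (W : ValuationSubring Ω) (hW : ∀ c : k, algebraMap k Ω c ∈ W) {z : Ω}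
    (hz : z ∈ algebraicClosure k Ω) : z ∈ W := by
  have h1 : IsIntegral k z := mem_algebraicClosure_iff'.1 hz
  let i : k →+* W := (algebraMap k Ω).codRestrict W.toSubring hW
  letI : Algebra k W := i.toAlgebra
  haveI : IsScalarTower k W Ω := IsScalarTower.of_algebraMap_eq fun z => rfl
  have h2 : IsIntegral W z := h1.tower_top
  obtain ⟨y, hy⟩ := IsIntegrallyClosed.isIntegral_iff.1 h2
  rw [← hy]
  exact y.2

theorem kbar_stable (σ : Ω ≃ₐ[F] Ω) {z : Ω} (hz : z ∈ algebraicClosure k Ω) :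
    σ z ∈ algebraicClosure k Ω :=
  (map_mem_algebraicClosure_iff ((σ.restrictScalars k : Ω ≃ₐ[k] Ω) : Ω →ₐ[k] Ω)).2 hz

theorem zero_of_nonunit (W : ValuationSubring Ω) (hW : ∀ c : k, algebraMap k Ω c ∈ W) {z : Ω}
    (hz : z ∈ algebraicClosure k Ω) (hn : z ∈ W.nonunits) : z = 0 := by
  rcases (nonunits_iff.1 hn).2 with h | h
  · exact h
  · exact absurd (int_mem W hW (inv_mem hz)) h

/-- the elements fixed by an automorphism -/
def fixF (σ : Ω ≃ₐ[F] Ω) : IntermediateField F Ω where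
  carrier := {z | σ z = z}
  mul_mem' := by
    intro a b ha hb
    simp only [Set.mem_setOf_eq] at *
    rw [map_mul, ha, hb]
  one_mem' := map_one σ
  add_mem' := by
    intro a b ha hb
    simp only [Set.mem_setOf_eq] at *
    rw [map_add, ha, hb]
  zero_mem' := map_zero σ
  algebraMap_mem' := fun r => σ.commutes r
  inv_mem' := by
    intro a ha
    simp only [Set.mem_setOf_eq] at *
    rw [map_inv₀, ha]

theorem mem_fixF (σ : Ω ≃ₐ[F] Ω) (z : Ω) : z ∈ fixF σ ↔ σ z = z := Iff.rfl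

theorem kbar_fixed (W : ValuationSubring Ω) (hW : ∀ c : k, algebraMap k Ω c ∈ W) (σ : Ω ≃ₐ[F] Ω)
    (hσ : ∀ z ∈ W, σ z - z ∈ W.nonunits) {z : Ω} (hz : z ∈ algebraicClosure k Ω) : σ z = z := by
  have h1 := hσ z (int_mem W hW hz)
  have h2 := zero_of_nonunit W hW (sub_mem (kbar_stable σ hz) hz) h1
  exact sub_eq_zero.1 h2

theorem geomF_fixed (W : ValuationSubring Ω) (hW : ∀ c : k, algebraMap k Ω c ∈ W) (σ : Ω ≃ₐ[F] Ω)
    (hσ : ∀ z ∈ W, σ z - z ∈ W.nonunits) {z : Ω} (hz : z ∈ geomF k F Ω) : σ z = z := by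
  have h1 : geomF k F Ω ≤ fixF σ := by
    unfold geomF
    rw [IntermediateField.adjoin_le_iff]
    intro c hc
    exact kbar_fixed W hW σ hσ hc
  exact h1 hz

theorem kbar_le {z : Ω} (hz : z ∈ algebraicClosure k Ω) : z ∈ geomF k F Ω :=
  IntermediateField.subset_adjoin F _ hz

theorem geomF_stable (σ : Ω ≃ₐ[F] Ω) {z : Ω} (hz : z ∈ geomF k F Ω) : σ z ∈ geomF k F Ω := by
  have h1 : geomF k F Ω ≤ (geomF k F Ω).comap (σ : Ω →ₐ[F] Ω) := by
    conv_lhs => unfold geomF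
    rw [IntermediateField.adjoin_le_iff]
    intro c hc
    exact kbar_le (kbar_stable σ hc)
  exact h1 hz

/-- the components for the eigenvalues -/
def comp (σ : Ω ≃ₐ[F] Ω) (N : ℕ) (ζ y : Ω) (i : ℕ) : Ω :=
  ∑ j ∈ Finset.range N, (ζ⁻¹ ^ i) ^ j * (σ ^ j) y

theorem comp_eigen (σ : Ω ≃ₐ[F] Ω) {N : ℕ} {ζ : Ω} (hζ : ζ ^ N = 1) (hζ0 : ζ ≠ 0)
    (hσζ : σ ζ = ζ) (y : Ω) (hy : (σ ^ N) y = y) (i : ℕ) :
    σ (comp σ N ζ y i) = ζ ^ i * comp σ N ζ y i := by
  unfold comp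
  have h1 : ∀ j, σ ((ζ⁻¹ ^ i) ^ j * (σ ^ j) y) =
      ζ ^ i * ((ζ⁻¹ ^ i) ^ (j + 1) * (σ ^ (j + 1)) y) := by
    intro j
    rw [map_mul, map_pow, map_pow, map_inv₀, hσζ, pow_succ' σ j, AlgEquiv.mul_apply,
      pow_succ (ζ⁻¹ ^ i) j, inv_pow]
    have h2 : ζ ^ i ≠ 0 := pow_ne_zero i hζ0
    field_simp
  rw [map_sum, Finset.sum_congr rfl fun j _ => h1 j, ← Finset.mul_sum]
  congr 1
  have h2 := Finset.sum_range_succ' (fun j => (ζ⁻¹ ^ i) ^ j * (σ ^ j) y) N
  have h3 := Finset.sum_range_succ (fun j => (ζ⁻¹ ^ i) ^ j * (σ ^ j) y) N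
  have h4 : (ζ⁻¹ ^ i) ^ N * (σ ^ N) y = (ζ⁻¹ ^ i) ^ 0 * (σ ^ 0) y := by
    rw [hy, pow_zero, pow_zero, AlgEquiv.one_apply, ← pow_mul, mul_comm i N, pow_mul, inv_pow, hζ,
      inv_one, one_pow]
  rw [h2, h4] at h3
  exact add_right_cancel h3

theorem sum_comp (σ : Ω ≃ₐ[F] Ω) {N : ℕ} (hN : 0 < N) {ζ : Ω} (hζ : IsPrimitiveRoot ζ N) (y : Ω) :
    ∑ i ∈ Finset.range N, comp σ N ζ y i = N * y := by
  unfold comp
  rw [Finset.sum_comm]
  have h1 : ∀ j ∈ Finset.range N, j ≠ 0 →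
      ∑ i ∈ Finset.range N, (ζ⁻¹ ^ i) ^ j * (σ ^ j) y = 0 := by
    intro j hj hj0
    rw [← Finset.sum_mul]
    have h2 : ∑ i ∈ Finset.range N, (ζ⁻¹ ^ i) ^ j = 0 := by
      have h3 : ∀ i, (ζ⁻¹ ^ i) ^ j = (ζ⁻¹ ^ j) ^ i := by
        intro i; rw [← pow_mul, ← pow_mul, mul_comm]
      rw [Finset.sum_congr rfl fun i _ => h3 i]
      have h4 := geom_sum_mul (ζ⁻¹ ^ j) N
      have h5 : (ζ⁻¹ ^ j) ^ N = 1 := by
        rw [← pow_mul, mul_comm, pow_mul, inv_pow, hζ.pow_eq_one, inv_one, one_pow]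
      rw [h5, sub_self] at h4
      rcases mul_eq_zero.1 h4 with h6 | h6
      · exact h6
      · exfalso
        have h7 : ζ ^ j = 1 := by
          rw [sub_eq_zero, inv_pow, inv_eq_one] at h6
          exact h6
        have h8 := hζ.dvd_of_pow_eq_one j h7
        exact absurd (Nat.le_of_dvd (Nat.pos_of_ne_zero hj0) h8)
          (not_le.2 (Finset.mem_range.1 hj))
    rw [h2, zero_mul]
  rw [Finset.sum_eq_single 0 h1 (fun h => absurd (Finset.mem_range.2 hN) h)]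
  have h9 : ∀ i ∈ Finset.range N, (ζ⁻¹ ^ i) ^ 0 * (σ ^ 0) y = y := by
    intro i _
    rw [pow_zero, pow_zero, one_mul, AlgEquiv.one_apply]
  rw [Finset.sum_congr rfl h9, Finset.sum_const, Finset.card_range, nsmul_eq_mul]

theorem fixed_of_comp (σ : Ω ≃ₐ[F] Ω) [CharZero Ω] {N : ℕ} (hN : 0 < N) {ζ : Ω}
    (hζ : IsPrimitiveRoot ζ N) (y : Ω) (h : ∀ i, σ (comp σ N ζ y i) = comp σ N ζ y i) :
    σ y = y := by
  have h1 := sum_comp σ hN hζ y
  have h2 : σ (N * y) = N * y := by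
    rw [← h1, map_sum]
    exact Finset.sum_congr rfl fun i _ => h i
  rw [map_mul, map_natCast] at h2
  exact mul_left_cancel₀ (Nat.cast_ne_zero.2 hN.ne') h2

section level

variable {K : Type} [Field K] [Algebra K Ω] (L : IntermediateField K Ω)

theorem level_mem [IsGalois K L] (σ : Ω ≃ₐ[K] Ω) {y : Ω} (hy : y ∈ L) : σ y ∈ L := by
  have h1 := AlgEquiv.restrictNormal_commutes σ L (⟨y, hy⟩ : L)
  have h2 : σ y = algebraMap L Ω (σ.restrictNormal L ⟨y, hy⟩) := h1.symm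
  rw [h2]
  exact (σ.restrictNormal L ⟨y, hy⟩).2

theorem level_pow [FiniteDimensional K L] [IsGalois K L] (σ : Ω ≃ₐ[K] Ω) {y : Ω} (hy : y ∈ L) :
    (σ ^ (Module.finrank K L)) y = y := by
  have h1 := AlgEquiv.restrictNormal_commutes (σ ^ (Module.finrank K L)) L (⟨y, hy⟩ : L)
  have h2 : (AlgEquiv.restrictNormalHom L (σ ^ (Module.finrank K L)) : L ≃ₐ[K] L) = 1 := by
    rw [map_pow, ← IsGalois.card_aut_eq_finrank K L]
    exact pow_card_eq_one'
  have h3 : (σ ^ (Module.finrank K L)).restrictNormal L = 1 := h2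
  rw [h3, AlgEquiv.one_apply] at h1
  exact h1.symm

end level

theorem fixed_level (ℓ : ℕ) [Fact ℓ.Prime] [CharZero Ω] [IsAlgClosed Ω] (W : ValuationSubring Ω)
    (hW : ∀ c : k, algebraMap k Ω c ∈ W) (σ : Ω ≃ₐ[F] Ω)
    (hσ : ∀ z ∈ W, σ z - z ∈ W.nonunits) (L : IntermediateField (geomF k F Ω) Ω)
    (hL : Lev ℓ L) (hU : Unr k (geomF k F Ω) Ω L) {y : Ω} (hy : y ∈ L) : σ y = y := by
  have hfin : FiniteDimensional (geomF k F Ω) L := hL.fin
  have hgal : IsGalois (geomF k F Ω) L := hL.gal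
  let τ : Ω ≃ₐ[geomF k F Ω] Ω := AlgEquiv.ofRingEquiv (f := (σ : Ω ≃+* Ω))
    (fun c => geomF_fixed W hW σ hσ c.2)
  have hτ : ∀ z, τ z = σ z := fun z => rfl
  have hτj : ∀ (j : ℕ) z, (τ ^ j) z = (σ ^ j) z := by
    intro j
    induction j with
    | zero => intro z; rw [pow_zero, pow_zero]; rfl
    | succ j ih =>
      intro z
      rw [pow_succ, pow_succ, AlgEquiv.mul_apply, AlgEquiv.mul_apply, ih, hτ]
  set N := Module.finrank (geomF k F Ω) L with hN
  have hN0 : 0 < N := Module.finrank_pos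
  haveI : NeZero N := ⟨hN0.ne'⟩
  obtain ⟨ζ, hζ⟩ : ∃ ζ : Ω, IsPrimitiveRoot ζ N := HasEnoughRootsOfUnity.exists_primitiveRoot Ω N
  have hζ0 : ζ ≠ 0 := hζ.ne_zero hN0.ne'
  have hζk : ζ ∈ algebraicClosure k Ω := by
    rw [mem_algebraicClosure_iff']
    exact hζ.isIntegral hN0 |>.tower_top
  have hσζ : σ ζ = ζ := kbar_fixed W hW σ hσ hζk
  apply fixed_of_comp σ hN0 hζ y
  intro i
  set u := comp σ N ζ y i with hu
  have huL : u ∈ L := by
    rw [hu]
    unfold comp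
    refine sum_mem fun j _ => mul_mem (pow_mem (pow_mem (inv_mem ?_) _) _) ?_
    · exact L.algebraMap_mem (⟨ζ, kbar_le hζk⟩ : geomF k F Ω)
    · rw [← hτj]
      exact level_mem L (τ ^ j) hy
  have heig : σ u = ζ ^ i * u := comp_eigen σ hζ.pow_eq_one hζ0 hσζ y (by
    rw [← hτj]; exact level_pow L τ hy) i
  by_cases hu0 : u = 0
  · rw [hu0, map_zero]
  obtain ⟨t, ht0, ht⟩ := hU W hW u huL hu0
  have ht' : σ (t : Ω) = t := geomF_fixed W hW σ hσ t.2
  set a := u / algebraMap (geomF k F Ω) Ω t with ha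
  have h1 : σ a = ζ ^ i * a := by
    rw [ha, map_div₀, heig]
    change _ / σ (t : Ω) = _
    rw [ht']
    exact mul_div_assoc _ _ _
  have h2 := hσ a ht.2.1
  rw [h1] at h2
  have h3 : ζ ^ i * a - a = a * (ζ ^ i - 1) := by ring
  rw [h3] at h2
  have h4 := non_of_isU_mul ht h2
  have h5 := zero_of_nonunit W hW (sub_mem (pow_mem hζk i) (one_mem _)) h4
  rw [heig, sub_eq_zero.1 h5, one_mul]

/-- the elements fixed by an automorphism, as an extension of a fixed field -/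
def fixK (K : IntermediateField F Ω) (σ : Ω ≃ₐ[F] Ω) (h : ∀ z ∈ K, σ z = z) :
    IntermediateField K Ω where
  carrier := {z | σ z = z}
  mul_mem' := by
    intro a b ha hb
    simp only [Set.mem_setOf_eq] at *
    rw [map_mul, ha, hb]
  one_mem' := map_one σ
  add_mem' := by
    intro a b ha hb
    simp only [Set.mem_setOf_eq] at *
    rw [map_add, ha, hb]
  zero_mem' := map_zero σ
  algebraMap_mem' := fun r => h r r.2
  inv_mem' := by
    intro a ha
    simp only [Set.mem_setOf_eq] at *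
    rw [map_inv₀, ha]

/-- the inverse image of an intermediate field under an automorphism stabilising the ground
field -/
def pre (K : IntermediateField F Ω) (σ : Ω ≃ₐ[F] Ω) (h : ∀ z ∈ K, σ z ∈ K)
    (L : IntermediateField K Ω) : IntermediateField K Ω where
  carrier := {z | σ z ∈ L}
  mul_mem' := by
    intro a b ha hb
    simp only [Set.mem_setOf_eq] at *
    rw [map_mul]
    exact mul_mem ha hb
  one_mem' := by
    simp only [Set.mem_setOf_eq]
    rw [map_one]; exact one_mem _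
  add_mem' := by
    intro a b ha hb
    simp only [Set.mem_setOf_eq] at *
    rw [map_add]
    exact add_mem ha hb
  zero_mem' := by
    simp only [Set.mem_setOf_eq]
    rw [map_zero]; exact zero_mem _
  algebraMap_mem' := fun r => L.algebraMap_mem (⟨σ r, h r r.2⟩ : K)
  inv_mem' := by
    intro a ha
    simp only [Set.mem_setOf_eq] at *
    rw [map_inv₀]
    exact inv_mem ha

theorem mem_pre (K : IntermediateField F Ω) (σ : Ω ≃ₐ[F] Ω) (h : ∀ z ∈ K, σ z ∈ K)
    (L : IntermediateField K Ω) (z : Ω) : z ∈ pre K σ h L ↔ σ z ∈ L := Iff.rfl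

/-- the restriction of an automorphism to a stable field -/
def resK (K : IntermediateField F Ω) (σ : Ω ≃ₐ[F] Ω) (h : ∀ z ∈ K, σ z ∈ K)
    (h' : ∀ z ∈ K, σ.symm z ∈ K) : K ≃+* K where
  toFun z := ⟨σ z, h z z.2⟩
  invFun z := ⟨σ.symm z, h' z z.2⟩
  left_inv z := Subtype.ext (σ.symm_apply_apply _)
  right_inv z := Subtype.ext (σ.apply_symm_apply _)
  map_mul' a b := Subtype.ext (map_mul σ _ _)
  map_add' a b := Subtype.ext (map_add σ _ _)

/-- the automorphism as a map from the inverse image -/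
def preEquiv (K : IntermediateField F Ω) (σ : Ω ≃ₐ[F] Ω) (h : ∀ z ∈ K, σ z ∈ K)
    (L : IntermediateField K Ω) : L ≃+* pre K σ h L where
  toFun z := ⟨σ.symm z, by rw [mem_pre, σ.apply_symm_apply]; exact z.2⟩
  invFun z := ⟨σ z, z.2⟩
  left_inv z := Subtype.ext (σ.apply_symm_apply _)
  right_inv z := Subtype.ext (σ.symm_apply_apply _)
  map_mul' a b := Subtype.ext (map_mul σ.symm _ _)
  map_add' a b := Subtype.ext (map_add σ.symm _ _)

theorem pre_lev (ℓ : ℕ) (K : IntermediateField F Ω) (σ : Ω ≃ₐ[F] Ω) (h : ∀ z ∈ K, σ z ∈ K)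
    (h' : ∀ z ∈ K, σ.symm z ∈ K) (L : IntermediateField K Ω) (hL : Lev ℓ L) :
    Lev ℓ (pre K σ h L) := by
  have hfin : FiniteDimensional K L := hL.fin
  have hgal : IsGalois K L := hL.gal
  have hc : (algebraMap K (pre K σ h L)).comp ((resK K σ h h').symm : K →+* K) =
      ((preEquiv K σ h L : L ≃+* pre K σ h L) : L →+* pre K σ h L).comp (algebraMap K L) := by
    ext z
    rfl
  refine ⟨?_, ?_, ?_⟩
  · exact Module.Finite.of_equiv_equiv (resK K σ h h').symm (preEquiv K σ h L) hc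
  · exact IsGalois.of_equiv_equiv hc
  · obtain ⟨m, hm⟩ := hL.card
    refine ⟨m, ?_⟩
    rw [← hm]
    exact (Algebra.finrank_eq_of_equiv_equiv (resK K σ h h').symm (preEquiv K σ h L) hc).symm

theorem pre_unr (K : IntermediateField F Ω) (σ : Ω ≃ₐ[F] Ω) (h : ∀ z ∈ K, σ z ∈ K)
    (h' : ∀ z ∈ K, σ.symm z ∈ K) (L : IntermediateField K Ω) (hL : Unr k K Ω L) :
    Unr k K Ω (pre K σ h L) := by
  intro W hW z hz hz0
  let W' : ValuationSubring Ω := W.comap ((σ.symm : Ω ≃+* Ω) : Ω →+* Ω)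
  have hW' : ∀ y, y ∈ W' ↔ σ.symm y ∈ W := fun y => ValuationSubring.mem_comap
  obtain ⟨t, ht0, ht⟩ := hL W' (fun c => by
    rw [hW', IsScalarTower.algebraMap_apply k F Ω, σ.symm.commutes,
      ← IsScalarTower.algebraMap_apply]
    exact hW c) (σ z) hz ((map_ne_zero_iff σ σ.injective).2 hz0)
  refine ⟨⟨σ.symm t, h' t t.2⟩, ?_, ?_⟩
  · intro h0
    apply ht0
    have h1 : σ.symm (t : Ω) = 0 := congrArg Subtype.val h0
    exact Subtype.ext ((map_eq_zero_iff σ.symm σ.symm.injective).1 h1)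
  · obtain ⟨h1, h2, h3⟩ := ht
    rw [hW', map_div₀, σ.symm_apply_apply] at h2
    rw [hW', map_inv₀, map_div₀, σ.symm_apply_apply] at h3
    refine ⟨?_, h2, h3⟩
    intro h0
    apply h1
    have h4 : σ.symm (σ z / algebraMap K Ω t) = 0 := by
      rw [map_div₀, σ.symm_apply_apply]
      exact h0
    exact (map_eq_zero_iff σ.symm σ.symm.injective).1 h4

end gen

end Pool.Agent.Y529.PS.IN

namespace Pool.Agent.Y529.PS

open Pool.Agent.Y157.PS IN

theorem inrt : S_INRT := by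
  intro ℓ _ k F Ω _ _ _ _ _ _ _ _ _ x hx _
  haveI : IsAlgClosed Ω := IsAlgClosure.isAlgClosed F
  haveI : CharZero Ω := charZero_of_injective_algebraMap (algebraMap k Ω).injective
  constructor
  · intro W hW σ _ hσ z hz
    have h1 : maxPro ℓ k (geomF k F Ω) Ω ≤
        fixK (geomF k F Ω) σ (fun z hz => geomF_fixed W hW σ hσ hz) := by
      unfold maxPro
      refine iSup_le fun L => ?_
      intro y hy
      exact fixed_level ℓ W hW σ hσ L.1 L.2.1 L.2.2 hy
    exact h1 hz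
  · intro σ z hz
    have h2 : ∀ z ∈ geomF k F Ω, σ z ∈ geomF k F Ω := fun z hz => geomF_stable σ hz
    have h3 : ∀ z ∈ geomF k F Ω, σ.symm z ∈ geomF k F Ω := fun z hz => geomF_stable σ.symm hz
    have h1 : maxPro ℓ k (geomF k F Ω) Ω ≤ pre (geomF k F Ω) σ h2 (maxPro ℓ k (geomF k F Ω) Ω) := by
      conv_lhs => unfold maxPro
      refine iSup_le fun L => ?_
      intro y hy
      rw [mem_pre]
      have h4 : pre (geomF k F Ω) σ.symm h3 L.1 ≤ maxPro ℓ k (geomF k F Ω) Ω := by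
        unfold maxPro
        exact le_iSup (fun L : {L : IntermediateField (geomF k F Ω) Ω //
          Lev ℓ L ∧ Unr k (geomF k F Ω) Ω L} => L.1)
          ⟨pre (geomF k F Ω) σ.symm h3 L.1, pre_lev ℓ _ _ _ h2 _ L.2.1, pre_unr _ _ _ h2 _ L.2.2⟩
      apply h4
      rw [mem_pre, σ.symm_apply_apply]
      exact hy
    exact h1 hz

end Pool.Agent.Y529.PS
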