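import Pool.Agent.Y157.PS.Stm3
import Pool.Agent.Y157.PS.Loc

/-!
# Discs over discrete valuation rings which are not complete

(job PS-NDISC of helper157)
-/

set_option autoImplicit false
set_option linter.all false

open Polynomial FF

namespace Pool.Agent.Y529.PS.ND

open Pool.Agent.Y157.PS

section compl

variable (A : Type) [CommRing A] [IsDomain A] [IsDiscreteValuationRing A]

/-- the completion -/
abbrev Ah : Type := AdicCompletion (IsLocalRing.maximalIdeal A) A

theorem alg_inj : Function.Injective (algebraMap A (Ah A)) := by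
  have h := AdicCompletion.of_injective (IsLocalRing.maximalIdeal A) A
  exact h

theorem max_span {ϖ : A} (hϖ : Irreducible ϖ) :
    IsLocalRing.maximalIdeal (Ah A) = Ideal.span {algebraMap A (Ah A) ϖ} := by
  have h := congrArg (Ideal.map (algebraMap A (Ah A))) hϖ.maximalIdeal_eq
  rw [Ideal.map_span, Set.image_singleton] at h
  rw [AdicCompletion.maximalIdeal_eq_map]
  exact h

theorem fact {ϖ : A} (hϖ : Irreducible ϖ) (x : Ah A) (hx : x ≠ 0) :
    ∃ (n : ℕ) (u : Ah A), IsUnit u ∧ x = algebraMap A (Ah A) ϖ ^ n * u := by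
  have h1 : ∃ n, x ∉ IsLocalRing.maximalIdeal (Ah A) ^ n := by
    by_contra hcon
    push Not at hcon
    apply hx
    apply IsHausdorff.haus (I := IsLocalRing.maximalIdeal (Ah A)) inferInstance x
    intro n
    rw [SModEq.zero, smul_eq_mul, Ideal.mul_top]
    exact hcon n
  classical
  have h2 := Nat.find_spec h1
  have h3 : 0 < Nat.find h1 := by
    rw [Nat.find_pos]
    rw [pow_zero, Ideal.one_eq_top]
    exact fun h => h trivial
  obtain ⟨n, hn⟩ : ∃ n, Nat.find h1 = n + 1 := ⟨Nat.find h1 - 1, by omega⟩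
  have h4 : x ∈ IsLocalRing.maximalIdeal (Ah A) ^ n := by
    have := Nat.find_min h1 (m := n) (by omega)
    rwa [not_not] at this
  rw [hn] at h2
  rw [max_span A hϖ, Ideal.span_singleton_pow, Ideal.mem_span_singleton] at h4 h2
  obtain ⟨u, hu⟩ := h4
  refine ⟨n, u, ?_, hu⟩
  by_contra h5
  have h6 : u ∈ IsLocalRing.maximalIdeal (Ah A) := (IsLocalRing.mem_maximalIdeal u).2 h5
  rw [max_span A hϖ, Ideal.mem_span_singleton] at h6
  obtain ⟨v, hv⟩ := h6
  apply h2
  exact ⟨v, by rw [hu, hv, pow_succ, mul_assoc]⟩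

instance : IsDomain (Ah A) := by
  obtain ⟨ϖ, hϖ⟩ := IsDiscreteValuationRing.exists_irreducible A
  have hn : ∀ n : ℕ, algebraMap A (Ah A) ϖ ^ n ≠ 0 := by
    intro n h
    rw [← map_pow, map_eq_zero_iff _ (alg_inj A)] at h
    exact pow_ne_zero n hϖ.ne_zero h
  haveI : NoZeroDivisors (Ah A) := by
    constructor
    intro x y hxy
    by_contra hcon
    push Not at hcon
    obtain ⟨a, u, hu, hx⟩ := fact A hϖ x hcon.1
    obtain ⟨b, v, hv, hy⟩ := fact A hϖ y hcon.2
    apply hn (a + b)
    rw [hx, hy] at hxy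
    have h1 : algebraMap A (Ah A) ϖ ^ (a + b) * (u * v) = 0 := by
      rw [← hxy]; ring
    exact (hu.mul hv).mul_left_eq_zero.1 h1
  exact NoZeroDivisors.to_isDomain _

instance : IsDiscreteValuationRing (Ah A) := by
  obtain ⟨ϖ, hϖ⟩ := IsDiscreteValuationRing.exists_irreducible A
  apply IsDiscreteValuationRing.ofHasUnitMulPowIrreducibleFactorization
  refine ⟨algebraMap A (Ah A) ϖ, ?_, ?_⟩
  · have h0 : algebraMap A (Ah A) ϖ ≠ 0 := by
      rw [ne_eq, map_eq_zero_iff _ (alg_inj A)]
      exact hϖ.ne_zero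
    apply Prime.irreducible
    rw [← Ideal.span_singleton_prime h0, ← max_span A hϖ]
    exact (IsLocalRing.maximalIdeal.isMaximal _).isPrime
  · intro x hx
    obtain ⟨n, u, hu, hxu⟩ := fact A hϖ x hx
    exact ⟨n, hu.unit, hxu.symm⟩

end compl

section main

variable {A k κ : Type} [CommRing A] [IsDomain A] [IsDiscreteValuationRing A] [Field k] [Field κ]
  [Algebra A k] [Algebra k κ] [Algebra A κ] [IsScalarTower A k κ] [IsFractionRing A k]

/-- the trace of a valuation ring on `k` -/
theorem trace (V : ValuationSubring κ) (hV : ∀ a : A, algebraMap A κ a ∈ V)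
    (hV' : ∀ a ∈ IsLocalRing.maximalIdeal A, algebraMap A κ a ∈ V.nonunits) (z : k) :
    algebraMap k κ z ∈ V ↔ ∃ a : A, algebraMap A k a = z := by
  constructor
  · intro hz
    by_cases hz0 : z = 0
    · exact ⟨0, by rw [map_zero, hz0]⟩
    rcases ValuationRing.isInteger_or_isInteger A z with h | h
    · exact h
    · obtain ⟨a, ha⟩ := h
      by_cases hu : IsUnit a
      · obtain ⟨u, rfl⟩ := hu
        refine ⟨((u⁻¹ : Aˣ) : A), ?_⟩
        have h1 : algebraMap A k ((u⁻¹ : Aˣ) : A) * algebraMap A k (u : A) = 1 := by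
          rw [← map_mul, Units.inv_mul, map_one]
        rw [ha] at h1
        have h2 : z ≠ 0 := by
          rintro rfl
          rw [inv_zero, mul_zero] at h1
          exact zero_ne_one h1
        field_simp at h1
        exact h1
      · exfalso
        have h1 := hV' a ((IsLocalRing.mem_maximalIdeal a).2 hu)
        rw [IsScalarTower.algebraMap_apply A k κ, ha, map_inv₀] at h1
        rcases (nonunits_iff.1 h1).2 with h2 | h2
        · rw [inv_eq_zero, map_eq_zero] at h2
          exact hz0 h2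
        · rw [inv_inv] at h2
          exact h2 hz
  · rintro ⟨a, rfl⟩
    rw [← IsScalarTower.algebraMap_apply]
    exact hV a

end main

section pull

variable {κ kb F : Type} [Field κ] [Field kb] [Field F]

/-- a place over `kb` as a place over `κ` -/
def pullPlace {E : Type} [Field E] [Algebra kb E] [Algebra κ E] (i : κ →+* kb)
    (h : ∀ c, algebraMap κ E c = algebraMap kb E (i c)) (P : Place kb E) : Place κ E where
  ord := P.ord
  ord_zero := P.ord_zero
  ord_mul := P.ord_mul
  ord_add := P.ord_add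
  ord_const := by
    intro c hc
    rw [h]
    exact P.ord_const ((map_ne_zero i).2 hc)
  surj := P.surj

variable (i : κ →+* kb) {V : ValuationSubring κ} {Vh : ValuationSubring kb}
  (hi : ∀ z, z ∈ V ↔ i z ∈ Vh)

include hi in
theorem pull_isU {z : κ} (hz : IsU V z) : IsU Vh (i z) :=
  ⟨(map_ne_zero i).2 hz.1, (hi z).1 hz.2.1, by rw [← map_inv₀]; exact (hi _).1 hz.2.2⟩

include hi in
theorem pull_non (z : κ) : z ∈ V.nonunits ↔ i z ∈ Vh.nonunits := by
  rw [nonunits_iff, nonunits_iff, hi, hi, map_inv₀, map_eq_zero]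

/-- a disc over `(kb, Vh)` as a disc over `(κ, V)` -/
def pullDisc {rh : Vh →+* F} {r : V →+* F}
    (hr : ∀ (z : κ) (hz : z ∈ V), r ⟨z, hz⟩ = rh ⟨i z, (hi z).1 hz⟩) {ℓ : ℕ} (D : Disc ℓ Vh rh) :
    Disc ℓ V r :=
  letI : Algebra κ D.E := ((algebraMap kb D.E).comp i).toAlgebra
  { E := D.E
    u := D.u
    O := D.O
    ρ := D.ρ
    ker := D.ker
    memV := fun c hc => D.memV (i c) ((hi c).1 hc)
    ρV := fun c hc => by rw [hr]; exact D.ρV (i c) ((hi c).1 hc)
    memu := D.memu
    ρu := D.ρu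
    pts := {P | ∃ P' ∈ D.pts, pullPlace i (fun c => rfl) P' = P}
    P0 := pullPlace i (fun c => rfl) D.P0
    P0u := D.P0u
    root := by
      intro g hg h
      exact D.root g hg fun P hP => h (pullPlace i (fun c => rfl) P) ⟨P, hP, rfl⟩
    unit := by
      rintro P ⟨P', hP', rfl⟩ c d hc hd n hn
      exact D.unit P' hP' (i c) (i d) (pull_isU i hi hc) ((hi d).1 hd) n hn
    rot := by
      intro ζ hζ
      obtain ⟨ι, h1, h2, h3⟩ := D.rot (i ζ) (by rw [← map_pow, hζ, map_one])
      exact ⟨AlgEquiv.ofRingEquiv (f := (ι : D.E ≃+* D.E)) (fun c => ι.commutes (i c)), h1, h2,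
        h3⟩ }

end pull

section residue

theorem integral_mem {A κ : Type} [CommRing A] [Field κ] [Algebra A κ] (V : ValuationSubring κ)
    (hV : ∀ a : A, algebraMap A κ a ∈ V) {z : κ} (hz : IsIntegral A z) : z ∈ V := by
  let i : A →+* V := (algebraMap A κ).codRestrict V.toSubring hV
  letI : Algebra A V := i.toAlgebra
  haveI : IsScalarTower A V κ := IsScalarTower.of_algebraMap_eq fun z => rfl
  have h2 : IsIntegral V z := hz.tower_top
  obtain ⟨y, hy⟩ := IsIntegrallyClosed.isIntegral_iff.1 h2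
  rw [← hy]
  exact y.2

variable {A B κ kb F : Type} [CommRing A] [CommRing B] [IsLocalRing B] [Algebra A B] [Field κ]
  [IsAlgClosed κ] [Field kb] [Field F] [Algebra A κ] [Algebra B kb] (i : κ →+* kb)
  {V : ValuationSubring κ} {Vh : ValuationSubring kb}

theorem res_surj (hi : ∀ z, z ∈ V ↔ i z ∈ Vh)
    (hiA : ∀ a : A, i (algebraMap A κ a) = algebraMap B kb (algebraMap A B a))
    (hVh : ∀ z : kb, z ∈ Vh ↔ IsIntegral B z) (rh : Vh →+* F) (hrh : Res Vh rh)
    (hres : ∀ c : B, ∃ a : A, algebraMap A B a - c ∈ IsLocalRing.maximalIdeal B)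
    (hnon : ∀ b ∈ IsLocalRing.maximalIdeal B, algebraMap B kb b ∈ Vh.nonunits)
    (hV : ∀ a : A, algebraMap A κ a ∈ V) (f : F) :
    ∃ (z : κ) (hz : z ∈ V), rh ⟨i z, (hi z).1 hz⟩ = f := by
  classical
  have hB : ∀ b : B, algebraMap B kb b ∈ Vh := fun b => (hVh _).2 isIntegral_algebraMap
  let jB : B →+* Vh := (algebraMap B kb).codRestrict Vh.toSubring hB
  let jA : A →+* V := (algebraMap A κ).codRestrict V.toSubring hV
  let iV : V →+* Vh := (i.comp V.subtype).codRestrict Vh.toSubring (fun z => (hi z).1 z.2)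
  have hcomp : iV.comp jA = jB.comp (algebraMap A B) := by
    ext a
    exact hiA a
  let β : B →+* F := rh.comp jB
  let α : A →+* F := β.comp (algebraMap A B)
  have hβ : ∀ c : B, β c ∈ Set.range α := by
    intro c
    obtain ⟨a, ha⟩ := hres c
    refine ⟨a, ?_⟩
    have h1 : β (algebraMap A B a - c) = 0 := (hrh.ker _).2 (hnon _ ha)
    rw [map_sub, sub_eq_zero] at h1
    exact h1
  obtain ⟨y, rfl⟩ := hrh.surj f
  obtain ⟨P, hP, hPy⟩ := (hVh y).1 y.2
  have hPy' : P.eval₂ jB y = 0 := by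
    apply Subtype.ext
    have h1 : (Vh.subtype) (P.eval₂ jB y) = P.eval₂ (Vh.subtype.comp jB) (Vh.subtype y) :=
      hom_eval₂ _ _ _ _
    rw [show ((P.eval₂ jB y : Vh) : kb) = Vh.subtype (P.eval₂ jB y) from rfl, h1]
    exact hPy
  have hroot : (P.map β).eval (rh y) = 0 := by
    rw [eval_map]
    have h1 : rh (P.eval₂ jB y) = P.eval₂ (rh.comp jB) (rh y) := hom_eval₂ _ _ _ _
    rw [hPy', map_zero] at h1
    exact h1.symm
  have hlift : P.map β ∈ lifts α := by
    rw [lifts_iff_coeff_lifts]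
    intro n
    rw [coeff_map]
    exact hβ _
  obtain ⟨Q, hQ, -, hQm⟩ := lifts_and_natDegree_eq_and_monic hlift (hP.map β)
  have hsp := (IsAlgClosed.splits (Q.map (algebraMap A κ)))
  have hprod := hsp.eq_prod_roots_of_monic (hQm.map _)
  have hrV : ∀ z ∈ (Q.map (algebraMap A κ)).roots, z ∈ V := by
    intro z hz
    apply integral_mem V hV
    refine ⟨Q, hQm, ?_⟩
    have h1 := (mem_roots'.1 hz).2
    rwa [IsRoot.def, eval_map] at h1
  obtain ⟨s, hs⟩ : ∃ s : Multiset V, s.map V.subtype = (Q.map (algebraMap A κ)).roots := by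
    refine ⟨(Q.map (algebraMap A κ)).roots.pmap (fun z h => ⟨z, h⟩) hrV, ?_⟩
    rw [Multiset.map_pmap]
    exact (Multiset.pmap_eq_map (fun z => z ∈ V) (fun z => z) _ hrV).trans (Multiset.map_id' _)
  have hQV : Q.map jA = (s.map fun z => X - C z).prod := by
    apply map_injective V.subtype Subtype.val_injective
    rw [Polynomial.map_map, Polynomial.map_multiset_prod, Multiset.map_map]
    have h1 : V.subtype.comp jA = algebraMap A κ := rfl
    rw [h1]
    conv_lhs => rw [hprod, ← hs]
    rw [Multiset.map_map]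
    congr 1
    apply Multiset.map_congr rfl
    intro z _
    simp
  have h2 : Q.map α = (s.map fun z => X - C (rh (iV z))).prod := by
    have h3 : α = (rh.comp iV).comp jA := by
      rw [RingHom.comp_assoc, hcomp]
      rfl
    rw [h3, ← Polynomial.map_map, hQV, Polynomial.map_multiset_prod, Multiset.map_map]
    congr 1
    apply Multiset.map_congr rfl
    intro z _
    simp
  rw [← hQ, h2, eval_multiset_prod, Multiset.prod_eq_zero_iff, Multiset.map_map,
    Multiset.mem_map] at hroot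
  obtain ⟨z, -, hz⟩ := hroot
  refine ⟨z, z.2, ?_⟩
  rw [Function.comp_apply, eval_sub, eval_X, eval_C, sub_eq_zero] at hz
  exact hz.symm

end residue

end Pool.Agent.Y529.PS.ND

namespace Pool.Agent.Y529.PS

open Pool.Agent.Y157.PS ND

theorem ndisc (hVAL : S_VAL) (hDISC : S_DISC) (hCONJ : S_CONJ) : S_NDISC := by
  intro A k κ _ _ _ _ _ _ _ _ _ _ _ _ _ V hV hV' ℓ _ hℓ
  haveI : IsAlgClosed κ := IsAlgClosure.isAlgClosed k
  let kh := FractionRing (Ah A)
  let kb := AlgebraicClosure kh
  have hinj0 : Function.Injective ((algebraMap (Ah A) kh).comp (algebraMap A (Ah A))) :=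
    (IsFractionRing.injective (Ah A) kh).comp (alg_inj A)
  let f0 : k →+* kh := IsFractionRing.lift hinj0
  have hf0 : ∀ a : A, f0 (algebraMap A k a) = algebraMap (Ah A) kh (algebraMap A (Ah A) a) :=
    fun a => IsFractionRing.lift_algebraMap hinj0 a
  haveI : CharZero kh := charZero_of_injective_ringHom f0.injective
  obtain ⟨Vh, hVh⟩ := hVAL (Ah A) kh kb
  obtain ⟨i0, hi0⟩ : ∃ i0 : κ →+* kb, ∀ c : k, i0 (algebraMap k κ c) = algebraMap kh kb (f0 c) := by
    letI : Algebra k kb := ((algebraMap kh kb).comp f0).toAlgebra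
    haveI : Algebra.IsAlgebraic k κ := IsAlgClosure.isAlgebraic
    let i1 : κ →ₐ[k] kb := IsAlgClosed.lift
    exact ⟨i1, fun c => i1.commutes c⟩
  have hi0A : ∀ a : A, i0 (algebraMap A κ a) = algebraMap (Ah A) kb (algebraMap A (Ah A) a) := by
    intro a
    rw [IsScalarTower.algebraMap_apply A k κ, hi0, hf0, ← IsScalarTower.algebraMap_apply]
  have hB : ∀ b : Ah A, algebraMap (Ah A) kb b ∈ Vh := fun b => (hVh _).2 isIntegral_algebraMap
  have hnon : ∀ b ∈ IsLocalRing.maximalIdeal (Ah A), algebraMap (Ah A) kb b ∈ Vh.nonunits := by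
    intro b hb
    rw [nonunits_iff]
    refine ⟨hB b, ?_⟩
    by_cases hb0 : b = 0
    · left; rw [hb0, map_zero]
    right
    intro h1
    have h2 : IsIntegral (Ah A) (algebraMap kh kb (algebraMap (Ah A) kh b)⁻¹) := by
      rw [map_inv₀, ← IsScalarTower.algebraMap_apply]
      exact (hVh _).1 h1
    have h3 : IsIntegral (Ah A) (algebraMap (Ah A) kh b)⁻¹ :=
      (isIntegral_algHom_iff (IsScalarTower.toAlgHom (Ah A) kh kb)
        (algebraMap kh kb).injective).1 h2
    obtain ⟨y, hy⟩ := IsIntegrallyClosed.isIntegral_iff.1 h3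
    have hb1 : algebraMap (Ah A) kh b ≠ 0 := by
      rw [ne_eq, map_eq_zero_iff _ (IsFractionRing.injective (Ah A) kh)]
      exact hb0
    have h4 : b * y = 1 := by
      apply IsFractionRing.injective (Ah A) kh
      rw [map_mul, hy, mul_inv_cancel₀ hb1, map_one]
    exact (IsLocalRing.mem_maximalIdeal b).1 hb (IsUnit.of_mul_eq_one _ h4)
  have hmax : ∀ a ∈ IsLocalRing.maximalIdeal A,
      algebraMap A (Ah A) a ∈ IsLocalRing.maximalIdeal (Ah A) := by
    intro a ha
    rw [AdicCompletion.maximalIdeal_eq_map]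
    exact Ideal.mem_map_of_mem _ ha
  -- conjugate the embedding
  let V' : ValuationSubring κ := Vh.comap i0
  have hV'A : ∀ a : A, algebraMap A κ a ∈ V' := by
    intro a
    rw [ValuationSubring.mem_comap, hi0A]
    exact hB _
  have hV'n : ∀ a ∈ IsLocalRing.maximalIdeal A, algebraMap A κ a ∈ V'.nonunits := by
    intro a ha
    rw [pull_non i0 (V := V') (Vh := Vh) (fun z => ValuationSubring.mem_comap), hi0A]
    exact hnon _ (hmax a ha)
  haveI : Normal k κ := by
    haveI : Algebra.IsAlgebraic k κ := IsAlgClosure.isAlgebraic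
    exact IsAlgClosure.normal k κ
  have htr : V'.comap (algebraMap k κ) = V.comap (algebraMap k κ) := by
    ext z
    exact (trace (A := A) (k := k) V' hV'A hV'n z).trans
      (trace (A := A) (k := k) V hV hV' z).symm
  obtain ⟨γ, hγ⟩ := hCONJ k κ V' V htr
  let i : κ →+* kb := i0.comp (γ : κ →+* κ)
  have hi : ∀ z, z ∈ V ↔ i z ∈ Vh := fun z => by
    rw [hγ, ValuationSubring.mem_comap]
    rfl
  have hiA : ∀ a : A, i (algebraMap A κ a) = algebraMap (Ah A) kb (algebraMap A (Ah A) a) := by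
    intro a
    rw [← hi0A]
    change i0 (γ (algebraMap A κ a)) = _
    rw [IsScalarTower.algebraMap_apply A k κ, γ.commutes]
  let F := IsLocalRing.ResidueField Vh
  let rh : Vh →+* F := IsLocalRing.residue Vh
  have hrh : Res Vh rh := res_residue
  have hC : CDVR (Ah A) kh kb Vh :=
    { compl := inferInstance
      frac := inferInstance
      char0 := inferInstance
      closure := inferInstance
      int := hVh }
  have hℓ' : IsUnit ((ℓ : ℕ) : Ah A) := by
    have := hℓ.map (algebraMap A (Ah A))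
    rwa [map_natCast] at this
  obtain ⟨D⟩ := hDISC (Ah A) kh kb Vh hC F rh hrh ℓ hℓ'
  let iV : V →+* Vh := (i.comp V.subtype).codRestrict Vh.toSubring (fun z => (hi z).1 z.2)
  let r : V →+* F := rh.comp iV
  have hr : ∀ (z : κ) (hz : z ∈ V), r ⟨z, hz⟩ = rh ⟨i z, (hi z).1 hz⟩ := fun z hz => rfl
  have hres : ∀ c : Ah A, ∃ a : A, algebraMap A (Ah A) a - c ∈ IsLocalRing.maximalIdeal (Ah A) := by
    intro c
    obtain ⟨x, hx⟩ := (AdicCompletion.residueField_map_bijective A).2 (IsLocalRing.residue _ c)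
    obtain ⟨a, rfl⟩ := IsLocalRing.residue_surjective x
    refine ⟨a, ?_⟩
    rw [IsLocalRing.ResidueField.map_residue] at hx
    rw [← IsLocalRing.residue_eq_zero_iff, map_sub, sub_eq_zero]
    exact hx
  refine ⟨F, inferInstance, r, ⟨?_, ?_⟩, ⟨pullDisc i hi hr D⟩⟩
  · intro f
    obtain ⟨z, hz, hzf⟩ := res_surj i hi hiA hVh rh hrh hres hnon hV f
    exact ⟨⟨z, hz⟩, hzf⟩
  · intro z
    rw [pull_non i hi]
    exact hrh.ker _

end Pool.Agent.Y529.PS
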