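import Pool.Agent.Y157.PS.Stm

/-!
# Prolongations of the Gauss valuation which are fixed by inertia generators

Task GEX of project PS (helper157).
-/

set_option autoImplicit false
set_option linter.all false

open Polynomial FF

namespace Pool.Agent.Y529.PS

open Pool.Agent.Y157.PS

/-! ### valuation rings -/

theorem isU_of_val {K : Type} [Field K] {O : ValuationSubring K} {z : K} (h : z ∈ O)
    (h' : z ∉ O.nonunits) : IsU O z := by
  rw [ValuationSubring.mem_nonunits_iff, not_lt] at h'
  have h1 := (O.valuation_le_one_iff z).2 h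
  have h2 : O.valuation z = 1 := le_antisymm h1 h'
  refine ⟨?_, h, ?_⟩
  · rintro rfl
    rw [map_zero] at h2
    exact zero_ne_one h2
  · rw [← O.valuation_le_one_iff, map_inv₀, h2, inv_one]

theorem not_nonunit {K : Type} [Field K] {O : ValuationSubring K} {z : K} (h : IsU O z) :
    z ∉ O.nonunits := by
  rw [ValuationSubring.mem_nonunits_iff, not_lt]
  have h1 := (O.valuation_le_one_iff _).2 h.2.2
  rw [map_inv₀] at h1
  have h2 : 0 < O.valuation z := by
    rw [zero_lt_iff]
    exact (Valuation.ne_zero_iff _).2 h.1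
  exact (inv_le_one₀ h2).1 h1

theorem inv_nonunit {K : Type} [Field K] {O : ValuationSubring K} {z : K} (h : z ∉ O) :
    z⁻¹ ∈ O.nonunits ∧ z⁻¹ ∈ O := by
  rw [← O.valuation_le_one_iff, not_le] at h
  have h2 : O.valuation z⁻¹ < 1 := by
    rw [map_inv₀]
    exact inv_lt_one_of_one_lt₀ h
  exact ⟨(O.mem_nonunits_iff).2 h2, (O.valuation_le_one_iff _).1 h2.le⟩

/-! ### places -/

section places

variable {k K : Type} [Field k] [Field K] [Algebra k K]

/-- the image of a place under an automorphism -/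
noncomputable def mapPlace (W : Place k K) (c : K ≃ₐ[k] K) : Place k K where
  ord z := W.ord (c z)
  ord_zero := by rw [map_zero, W.ord_zero]
  ord_mul := by
    intro f g hf hg
    rw [map_mul]
    exact W.ord_mul ((_root_.map_ne_zero c).2 hf) ((_root_.map_ne_zero c).2 hg)
  ord_add := by
    intro f g hf hg hfg
    rw [map_add]
    exact W.ord_add ((_root_.map_ne_zero c).2 hf) ((_root_.map_ne_zero c).2 hg) (by
      rw [← map_add]
      exact (_root_.map_ne_zero c).2 hfg)
  ord_const := by
    intro a ha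
    rw [AlgEquiv.commutes]
    exact W.ord_const ha
  surj := by
    obtain ⟨t, ht0, ht⟩ := W.surj
    refine ⟨c.symm t, ?_, ?_⟩
    · exact (_root_.map_ne_zero c.symm).2 ht0
    · rw [AlgEquiv.apply_symm_apply]
      exact ht

theorem fixes_of_O (W : Place k K) (c : K ≃ₐ[k] K) (h : ∀ z, c z ∈ W.O ↔ z ∈ W.O) :
    Fixes W c := by
  have h1 : mapPlace W c = W := by
    refine Place.ext_O ?_
    ext z
    rw [← h z]
    change (mapPlace W c).Reg z ↔ W.Reg (c z)
    unfold Place.Reg
    rw [map_eq_zero]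
    exact Iff.rfl
  intro z
  exact congrFun (congrArg Place.ord h1) z

theorem mem_O_of_fixes (W : Place k K) (c : K ≃ₐ[k] K) (h : Fixes W c) (z : K) :
    c z ∈ W.O ↔ z ∈ W.O := by
  change W.Reg (c z) ↔ W.Reg z
  unfold Place.Reg
  rw [map_eq_zero, h z]

theorem red_prod {ι : Type} [DecidableEq ι] (P : Place k K) (s : Finset ι) (f : ι → K)
    (h : ∀ i ∈ s, P.Reg (f i)) :
    P.Reg (∏ i ∈ s, f i) ∧ P.red (∏ i ∈ s, f i) = ∏ i ∈ s, P.red (f i) := by
  induction s using Finset.induction_on with
  | empty => exact ⟨P.reg_one, P.red_one⟩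
  | insert a s ha ih =>
    obtain ⟨h1, h2⟩ := ih fun i hi => h i (Finset.mem_insert_of_mem hi)
    have h3 := h a (Finset.mem_insert_self a s)
    rw [Finset.prod_insert ha, Finset.prod_insert ha, ← h2]
    exact ⟨P.reg_mul h3 h1, P.red_mul h3 h1⟩

/-- an automorphism which fixes a place acts trivially on elements whose residue is a root of a
constant -/
theorem red_fix [IsAlgClosed k] (P : Place k K) (ι : K ≃ₐ[k] K) (hι : Fixes P ι) {g : K} {n : ℕ}
    (hn : 0 < n) (hg : P.Reg g) (a : k) (ha : P.red (g ^ n) = algebraMap k P.RF a) :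
    P.Reg (ι g) ∧ P.red (ι g) = P.red g ∧ ∃ c : k, P.red g = algebraMap k P.RF c := by
  rw [P.red_pow hg] at ha
  have hint : IsIntegral k (P.red g) := by
    refine ⟨X ^ n - C a, monic_X_pow_sub_C a hn.ne', ?_⟩
    rw [eval₂_sub, eval₂_X_pow, eval₂_C, ha, sub_self]
  obtain ⟨c, hc⟩ : ∃ c : k, algebraMap k P.RF c = P.red g := by
    have := minpoly.mem_range_of_degree_eq_one k (P.red g)
      (IsAlgClosed.degree_eq_one_of_irreducible k (minpoly.irreducible hint))
    exact this
  have hreg : P.Reg (ι g) := (mem_O_of_fixes P ι hι g).2 hg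
  refine ⟨hreg, ?_, c, hc.symm⟩
  have h1 : P.red (g - algebraMap k K c) = 0 := by
    rw [P.red_sub hg (P.reg_const c), ← P.algebraMap_RF, hc, sub_self]
  have hr : P.Reg (g - algebraMap k K c) := by
    rw [sub_eq_add_neg]
    exact P.reg_add hg (P.reg_neg (P.reg_const c))
  have hr' : P.Reg (ι (g - algebraMap k K c)) := (mem_O_of_fixes P ι hι _).2 hr
  have h2 : P.red (ι (g - algebraMap k K c)) = 0 := by
    rw [P.red_eq_zero_iff hr']
    rcases (P.red_eq_zero_iff hr).1 h1 with h3 | h3
    · left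
      rw [h3, map_zero]
    · right
      rw [hι]
      exact h3
  rw [map_sub, AlgEquiv.commutes, P.red_sub hreg (P.reg_const c), ← P.algebraMap_RF, hc] at h2
  exact sub_eq_zero.1 h2

end places

/-! ### Laurent series -/

section laurent

variable (F : Type) [Field F]

/-- polynomials as Laurent series -/
noncomputable def Th : F[X] →+* LaurentSeries F :=
  (HahnSeries.ofPowerSeries ℤ F).comp Polynomial.coeToPowerSeries.ringHom

theorem Th_inj : Function.Injective (Th F) := by
  unfold Th
  rw [RingHom.coe_comp]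
  exact HahnSeries.ofPowerSeries_injective.comp (Polynomial.coe_injective F)

theorem Th_C (a : F) : Th F (C a) = HahnSeries.C a := by
  unfold Th
  rw [RingHom.comp_apply]
  change HahnSeries.ofPowerSeries ℤ F ((C a : F[X]) : PowerSeries F) = _
  rw [Polynomial.coe_C]
  exact HahnSeries.ofPowerSeries_C a

theorem Th_X : Th F X = HahnSeries.single 1 1 := by
  unfold Th
  rw [RingHom.comp_apply]
  change HahnSeries.ofPowerSeries ℤ F ((X : F[X]) : PowerSeries F) = _
  rw [Polynomial.coe_X]
  exact HahnSeries.ofPowerSeries_X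

theorem eval_ne {q : F[X]} (hq : q ≠ 0) (a : F) {n : ℕ} (hn : 0 < n) :
    q.eval₂ (HahnSeries.C : F →+* LaurentSeries F)
      (HahnSeries.C a + (HahnSeries.single (1 : ℤ) (1 : F) : LaurentSeries F) ^ n) ≠ 0 := by
  have h1 : q.eval₂ (HahnSeries.C : F →+* LaurentSeries F)
      (HahnSeries.C a + (HahnSeries.single (1 : ℤ) (1 : F) : LaurentSeries F) ^ n)
      = Th F (q.comp (C a + X ^ n)) := by
    rw [Polynomial.comp, Polynomial.hom_eval₂]
    congr 1
    · ext b
      rw [RingHom.comp_apply, Th_C]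
    · rw [map_add, map_pow, Th_C, Th_X]
  rw [h1]
  intro h0
  have h2 : q.comp (C a + X ^ n) = 0 := Th_inj F (h0.trans (map_zero _).symm)
  rw [Polynomial.comp_eq_zero_iff] at h2
  rcases h2 with h2 | ⟨-, h2⟩
  · exact hq h2
  · have h3 := congrArg (fun p => p.coeff n) h2
    simp only [coeff_add, coeff_C, coeff_X_pow, if_pos, hn.ne', if_false] at h3
    simp at h3

end laurent

/-! ### the theorem -/

theorem gex (hE : S_EMB) : S_GEX := by
  classical
  intro ℓ _ κ R M _ _ _ _ _ _ _ _ _ x B Y hc F _ V r hr hg D e he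
  have hℓ : ℓ.Prime := Fact.out
  have hℓ0 : 0 < ℓ := hℓ.pos
  set E := D.E
  have hu0 : D.u ≠ 0 := by
    intro h
    have := D.P0u
    rw [h, D.P0.ord_zero] at this
    omega
  set X : E := algebraMap κ E e + D.u ^ ℓ with hX
  have hXe : X - algebraMap κ E e = D.u ^ ℓ := by rw [hX]; ring
  have hord : D.P0.ord (D.u ^ ℓ) = ℓ := by
    rw [D.P0.ord_pow, D.P0u, mul_one]
  have htr : Transcendental κ X := by
    intro h
    have h1 : IsAlgebraic κ (X - algebraMap κ E e) := h.sub (isAlgebraic_algebraMap e)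
    rw [hXe] at h1
    refine D.P0.transcendental_of_ord_ne (f := D.u ^ ℓ) ?_ h1
    rw [hord]
    exact_mod_cast hℓ0.ne'
  have hne : ∀ e' : κ, X - algebraMap κ E e' ≠ 0 := by
    intro e' h
    rw [sub_eq_zero] at h
    apply htr
    rw [h]
    exact isAlgebraic_algebraMap e'
  -- the factors
  have hfac : ∀ e' : κ, X - algebraMap κ E e'
      = algebraMap κ E (e - e') + algebraMap κ E 1 * D.u ^ ℓ := by
    intro e'
    rw [hX, map_sub, map_one]
    ring
  obtain ⟨j, hj⟩ := hE ℓ κ R M x B Y hc E D.pts D.root X htr (by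
    intro P hP
    rw [← Finset.mul_prod_erase B _ he, hXe]
    have h0 : ∏ e' ∈ B.erase e, (X - algebraMap κ E e') ≠ 0 :=
      Finset.prod_ne_zero_iff.2 fun e' _ => hne e'
    rw [P.ord_mul (pow_ne_zero _ hu0) h0, P.ord_pow]
    have h1 : P.ord (∏ e' ∈ B.erase e, (X - algebraMap κ E e')) = 0 := by
      have h2 : ∀ s : Finset κ, s ⊆ B.erase e → P.ord (∏ e' ∈ s, (X - algebraMap κ E e')) = 0 := by
        intro s
        induction s using Finset.induction_on with
        | empty => intro _; exact P.ord_one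
        | insert a s ha ih =>
          intro hs
          rw [Finset.prod_insert ha, P.ord_mul (hne a) (Finset.prod_ne_zero_iff.2 fun e' _ => hne e'),
            ih ((Finset.subset_insert a s).trans hs), add_zero, hfac]
          have haB := hs (Finset.mem_insert_self a s)
          rw [Finset.mem_erase] at haB
          exact D.unit P hP _ _ (hg.2 e he a haB.2 haB.1.symm) (one_mem V) ℓ hℓ0
      exact h2 _ subset_rfl
    rw [h1, add_zero]
    exact Dvd.intro _ rfl)
  set O : ValuationSubring M := D.O.comap j.toRingHom with hO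
  have memO : ∀ z : M, z ∈ O ↔ j z ∈ D.O := fun z => ValuationSubring.mem_comap
  have jc : ∀ c : κ, j (algebraMap κ M c) = algebraMap κ E c := fun c => j.commutes c
  have hxO : X ∈ D.O := add_mem (D.memV e (hg.1 e he)) (pow_mem D.memu _)
  -- the Gauss valuation
  have hGauss : Gauss V (algebraMap R M x) O := by
    constructor
    · intro c
      rw [memO, jc]
      constructor
      · intro h
        by_contra hcV
        obtain ⟨h1, h2⟩ := inv_nonunit hcV
        have h3 : r ⟨c⁻¹, h2⟩ = 0 := (hr.ker _).2 h1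
        have h4 : D.ρ ⟨algebraMap κ E c⁻¹, D.memV _ h2⟩ = 0 := by
          rw [D.ρV _ h2, h3, map_zero]
        have h5 : algebraMap κ E c⁻¹ ∈ D.O.nonunits := (D.ker _).1 h4
        rw [map_inv₀] at h5
        have hc0 : c ≠ 0 := by
          rintro rfl
          exact hcV (zero_mem V)
        refine not_nonunit (O := D.O) (z := (algebraMap κ E c)⁻¹) ⟨?_, ?_, ?_⟩ h5
        · exact inv_ne_zero ((_root_.map_ne_zero _).2 hc0)
        · rw [← map_inv₀]
          exact D.memV _ h2
        · rw [inv_inv]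
          exact h
      · exact fun h => D.memV c h
    · intro p hp ⟨n, hn⟩
      have hlift : p ∈ lifts (V.subtype) := by
        rw [lifts_iff_coeff_lifts]
        intro m
        exact ⟨⟨p.coeff m, hp m⟩, rfl⟩
      obtain ⟨q, hq⟩ := (mem_lifts p).1 hlift
      set ψ : V →+* D.O := ((algebraMap κ E).comp V.subtype).codRestrict D.O
        (fun c => D.memV c.1 c.2) with hψ
      set X' : D.O := ⟨X, hxO⟩ with hX'
      have h1 : (j (aeval (algebraMap R M x) p) : E) = ((q.eval₂ ψ X' : D.O) : E) := by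
        have h2 : j (aeval (algebraMap R M x) p) = aeval X p := by
          rw [← hj]
          exact (aeval_algHom_apply j (algebraMap R M x) p).symm
        rw [h2, aeval_def, ← hq, eval₂_map]
        have h3 : ((q.eval₂ ψ X' : D.O) : E) = D.O.subtype (q.eval₂ ψ X') := rfl
        rw [h3, hom_eval₂]
        rfl
      have h4 : D.ρ (q.eval₂ ψ X') ≠ 0 := by
        rw [hom_eval₂]
        have h5 : D.ρ.comp ψ = (HahnSeries.C : F →+* LaurentSeries F).comp r := by
          ext1 c
          exact D.ρV c.1 c.2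
        have h6 : D.ρ X' = HahnSeries.C (r ⟨e, hg.1 e he⟩)
            + (HahnSeries.single (1 : ℤ) (1 : F) : LaurentSeries F) ^ ℓ := by
          have h7 : X' = ⟨algebraMap κ E e, D.memV e (hg.1 e he)⟩ + (⟨D.u, D.memu⟩ : D.O) ^ ℓ :=
            Subtype.ext rfl
          rw [h7, map_add, map_pow, D.ρV, D.ρu]
        rw [h5, h6, ← eval₂_map]
        refine eval_ne F ?_ _ hℓ0
        intro h8
        have h9 : r (q.coeff n) = 0 := by
          rw [← coeff_map, h8, coeff_zero]
        have h10 := (hr.ker _).1 h9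
        have h11 : ((q.coeff n : V) : κ) = p.coeff n := by
          rw [← hq, coeff_map]
          rfl
        rw [h11] at h10
        exact not_nonunit hn h10
      have h5 : (((q.eval₂ ψ X' : D.O) : E)) ∉ D.O.nonunits := by
        intro h
        exact h4 ((D.ker _).2 h)
      have h6 : IsU D.O (((q.eval₂ ψ X' : D.O) : E)) := isU_of_val (Subtype.mem _) h5
      rw [← h1] at h6
      refine ⟨?_, ?_, ?_⟩
      · intro h
        rw [h, map_zero] at h6
        exact h6.1 rfl
      · rw [memO]
        exact h6.2.1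
      · rw [memO, map_inv₀]
        exact h6.2.2
  -- the rotation
  have hzeta : NeZero (ℓ : κ) := ⟨Nat.cast_ne_zero.2 hℓ.ne_zero⟩
  obtain ⟨ζ, hζ⟩ := HasEnoughRootsOfUnity.exists_primitiveRoot κ ℓ
  obtain ⟨ι, hι1, hι2, hι3⟩ := D.rot ζ hζ.pow_eq_one
  have hιX : ι X = X := by
    rw [hX, map_add, map_pow, hι1, AlgEquiv.commutes, mul_pow, ← map_pow, hζ.pow_eq_one, map_one,
      one_mul]
  have hιR : ∀ y : R, ι (j (algebraMap R M y)) = j (algebraMap R M y) := by
    intro y
    have hy : y ∈ IntermediateField.adjoin κ {x} := by rw [hc.rat.gen]; trivial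
    induction hy using IntermediateField.adjoin_induction with
    | mem y hy =>
      rw [Set.mem_singleton_iff] at hy
      subst hy
      rw [hj]
      exact hιX
    | algebraMap c =>
      rw [← IsScalarTower.algebraMap_apply, jc, AlgEquiv.commutes]
    | add y z _ _ hy hz => simp only [map_add, hy, hz]
    | inv y _ hy => simp only [map_inv₀, hy]
    | mul y z _ _ hy hz => simp only [map_mul, hy, hz]
  letI : Algebra M E := j.toRingHom.toAlgebra
  letI : Algebra R E := (j.toRingHom.comp (algebraMap R M)).toAlgebra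
  haveI : IsScalarTower R M E := IsScalarTower.of_algebraMap_eq fun _ => rfl
  let ιR : E ≃ₐ[R] E := { ι with commutes' := hιR }
  haveI := hc.gal
  haveI : Normal R M := inferInstance
  let c : M ≃ₐ[R] M := ιR.restrictNormal M
  have hcj : ∀ z : M, j (c z) = ι (j z) := fun z => ιR.restrictNormal_commutes M z
  let cκ : M ≃ₐ[κ] M := c.restrictScalars κ
  -- the place
  set V' : ValuationSubring M := D.P0.O.comap j.toRingHom with hV'
  have memV' : ∀ z : M, z ∈ V' ↔ D.P0.Reg (j z) := fun z => ValuationSubring.mem_comap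
  have hxe : j (algebraMap R M x - algebraMap κ M e) = D.u ^ ℓ := by
    rw [map_sub, hj, jc, hXe]
  have hxe0 : algebraMap R M x - algebraMap κ M e ≠ 0 := by
    intro h
    rw [h, map_zero] at hxe
    exact pow_ne_zero ℓ hu0 hxe.symm
  have hnot : (algebraMap R M x - algebraMap κ M e)⁻¹ ∉ V' := by
    rw [memV', map_inv₀, hxe, D.P0.reg_iff (inv_ne_zero (pow_ne_zero _ hu0)), D.P0.ord_inv, hord]
    have : (0 : ℤ) < ℓ := by exact_mod_cast hℓ0
    omega
  obtain ⟨W, hW, -⟩ := hc.loc V' (fun a => by
    rw [memV', jc]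
    exact D.P0.reg_const a) (by
    intro h
    apply hnot
    rw [h]
    trivial)
  have hWc : Fixes W c := by
    have h1 : Fixes W cκ := by
      refine fixes_of_O W cκ fun z => ?_
      rw [hW, memV', memV']
      change D.P0.Reg (j (c z)) ↔ _
      rw [hcj]
      exact mem_O_of_fixes D.P0 ι hι3 (j z)
    exact h1
  refine ⟨O, c, W, hGauss, ?_, hWc, ?_, ?_⟩
  · intro z
    rw [memO, memO, hcj]
    exact hι2 (j z)
  · by_contra hle
    push Not at hle
    apply hnot
    rw [← hW, Place.mem_O, W.reg_iff (inv_ne_zero hxe0), W.ord_inv]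
    omega
  · -- `c Y ≠ Y`
    intro hcY
    have h1 : ι (j Y) = j Y := by rw [← hcj, hcY]
    have hjY : (j Y) ^ ℓ = D.u ^ ℓ * ∏ e' ∈ B.erase e, (X - algebraMap κ E e') := by
      rw [← map_pow, hc.eqn, map_prod, ← Finset.mul_prod_erase B _ he, hxe]
      congr 1
      refine Finset.prod_congr rfl fun e' _ => ?_
      rw [map_sub, hj, jc]
    set g : E := j Y / D.u with hgdef
    have hgℓ : g ^ ℓ = ∏ e' ∈ B.erase e, (X - algebraMap κ E e') := by
      rw [hgdef, div_pow, hjY, mul_div_cancel_left₀ _ (pow_ne_zero _ hu0)]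
    have hreg : ∀ e' : κ, D.P0.Reg (X - algebraMap κ E e') := by
      intro e'
      rw [hfac, map_one, one_mul]
      refine D.P0.reg_add (D.P0.reg_const _) (Or.inr ?_)
      rw [hord]
      exact Int.natCast_nonneg _
    have hred : ∀ e' : κ, D.P0.red (X - algebraMap κ E e')
        = algebraMap κ D.P0.RF (e - e') := by
      intro e'
      have hru : D.P0.Reg (D.u ^ ℓ) := Or.inr (by rw [hord]; exact Int.natCast_nonneg _)
      rw [hfac, map_one, one_mul, D.P0.red_add (D.P0.reg_const _) hru, ← D.P0.algebraMap_RF]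
      have h2 : D.P0.red (D.u ^ ℓ) = 0 := by
        rw [D.P0.red_eq_zero_iff hru]
        right
        rw [hord]
        exact_mod_cast hℓ0
      rw [h2, add_zero]
    obtain ⟨hp1, hp2⟩ := red_prod D.P0 (B.erase e) (fun e' => X - algebraMap κ E e')
      fun e' _ => hreg e'
    have hp3 : D.P0.red (g ^ ℓ) = algebraMap κ D.P0.RF (∏ e' ∈ B.erase e, (e - e')) := by
      rw [hgℓ, hp2, map_prod]
      exact Finset.prod_congr rfl fun e' _ => hred e'
    have hprod0 : ∏ e' ∈ B.erase e, (e - e') ≠ 0 := by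
      refine Finset.prod_ne_zero_iff.2 fun e' he' => ?_
      rw [sub_ne_zero]
      exact (Finset.ne_of_mem_erase he').symm
    have hg0 : g ≠ 0 := by
      intro h
      rw [h, zero_pow hℓ.ne_zero] at hgℓ
      exact Finset.prod_ne_zero_iff.2 (fun e' _ => hne e') hgℓ.symm
    have hgreg : D.P0.Reg g := by
      rw [D.P0.reg_iff hg0]
      have h2 : 0 ≤ D.P0.ord (g ^ ℓ) := by
        rw [hgℓ]
        exact (D.P0.reg_iff (Finset.prod_ne_zero_iff.2 fun e' _ => hne e')).1 hp1
      rw [D.P0.ord_pow] at h2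
      have : (0 : ℤ) < ℓ := by exact_mod_cast hℓ0
      exact nonneg_of_mul_nonneg_right h2 this
    obtain ⟨hr1, hr2, c1, hc1⟩ := red_fix D.P0 ι hι3 hℓ0 hgreg _ hp3
    have hc10 : c1 ≠ 0 := by
      rintro rfl
      rw [map_zero] at hc1
      rw [D.P0.red_pow hgreg, hc1, zero_pow hℓ.ne_zero] at hp3
      exact hprod0 ((map_eq_zero _).1 hp3.symm)
    have hιg : ι g = algebraMap κ E ζ⁻¹ * g := by
      rw [hgdef, map_div₀, h1, hι1, map_inv₀]
      rw [div_mul_eq_div_div, inv_mul_eq_div, div_right_comm]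
    rw [hιg, D.P0.red_mul (D.P0.reg_const _) hgreg, ← D.P0.algebraMap_RF, hc1, ← map_mul] at hr2
    have h3 : ζ⁻¹ * c1 = c1 := (algebraMap κ D.P0.RF).injective hr2
    have h4 : ζ⁻¹ = 1 := by
      have : ζ⁻¹ * c1 = 1 * c1 := by rw [h3, one_mul]
      exact mul_right_cancel₀ hc10 this
    rw [inv_eq_one] at h4
    exact hζ.ne_one hℓ.one_lt h4

end Pool.Agent.Y529.PS
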