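import Pool.Agent.Y157.PS.Tools
import Pool.Agent.Y529.PS.GEX

/-!
# A character of the Galois group of a finite extension of `κ(x)` is nontrivial on a stabiliser

(job PS-T1B of helper157)
-/

set_option autoImplicit false
set_option linter.all false

open Polynomial FF

namespace Pool.Agent.Y529.PS.TB

open Pool.Agent.Y157.PS

section restrict

variable {κ N : Type} [Field κ] [Field N] [Algebra κ N]

/-- the restriction of a place -/
theorem exists_restrict {K : Type} [Field K] [Algebra κ K] (i : K →ₐ[κ] N) (w : Place κ N)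
    (h : ∃ f : K, w.ord (i f) ≠ 0) :
    ∃ (v : Place κ K) (e : ℤ), 0 < e ∧ ∀ f : K, w.ord (i f) = e * v.ord f := by
  have i0 : ∀ f : K, f ≠ 0 → i f ≠ 0 := fun f hf => (map_ne_zero i).2 hf
  let H : AddSubgroup ℤ :=
    { carrier := {n | ∃ f : K, f ≠ 0 ∧ w.ord (i f) = n}
      add_mem' := by
        rintro a b ⟨f, hf, rfl⟩ ⟨g, hg, rfl⟩
        exact ⟨f * g, mul_ne_zero hf hg, by rw [map_mul, w.ord_mul (i0 f hf) (i0 g hg)]⟩
      zero_mem' := ⟨1, one_ne_zero, by rw [map_one, w.ord_one]⟩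
      neg_mem' := by
        rintro a ⟨f, hf, rfl⟩
        exact ⟨f⁻¹, inv_ne_zero hf, by rw [map_inv₀, w.ord_inv]⟩ }
  obtain ⟨a, ha⟩ := Int.subgroup_cyclic H
  have hd : ∀ f : K, a ∣ w.ord (i f) := by
    intro f
    by_cases hf : f = 0
    · rw [hf, map_zero, w.ord_zero]; exact dvd_zero _
    have h1 : w.ord (i f) ∈ H := ⟨f, hf, rfl⟩
    rw [ha, AddSubgroup.mem_closure_singleton] at h1
    obtain ⟨n, hn⟩ := h1
    exact ⟨n, by rw [← hn, smul_eq_mul, mul_comm]⟩
  have ha0 : a ≠ 0 := by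
    rintro rfl
    obtain ⟨f, hf⟩ := h
    exact hf (zero_dvd_iff.1 (hd f))
  have haH : a ∈ H := by
    rw [ha, AddSubgroup.mem_closure_singleton]
    exact ⟨1, one_smul _ _⟩
  obtain ⟨t, ht0, ht⟩ := haH
  have he : 0 < |a| := abs_pos.2 ha0
  have hd' : ∀ f : K, |a| ∣ w.ord (i f) := fun f => (abs_dvd _ _).2 (hd f)
  have hs : ∃ t : K, t ≠ 0 ∧ w.ord (i t) = |a| := by
    rcases abs_choice a with h1 | h1
    · exact ⟨t, ht0, by rw [h1, ht]⟩
    · exact ⟨t⁻¹, inv_ne_zero ht0, by rw [h1, map_inv₀, w.ord_inv, ht]⟩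
  refine ⟨{ ord := fun f => w.ord (i f) / |a|
            ord_zero := by rw [map_zero, w.ord_zero, Int.zero_ediv]
            ord_mul := ?_
            ord_add := ?_
            ord_const := ?_
            surj := ?_ }, |a|, he, ?_⟩
  · intro f g hf hg
    rw [map_mul, w.ord_mul (i0 f hf) (i0 g hg), Int.add_ediv_of_dvd_left (hd' f)]
  · intro f g hf hg hfg
    have h1 := w.ord_add (i0 f hf) (i0 g hg) (by rw [← map_add]; exact i0 _ hfg)
    rw [map_add]
    rcases min_le_iff.1 h1 with h2 | h2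
    · exact (min_le_left _ _).trans (Int.ediv_le_ediv he h2)
    · exact (min_le_right _ _).trans (Int.ediv_le_ediv he h2)
  · intro c hc
    rw [i.commutes, w.ord_const hc, Int.zero_ediv]
  · obtain ⟨s, hs0, hs⟩ := hs
    exact ⟨s, hs0, by rw [hs, Int.ediv_self he.ne']⟩
  · intro f
    exact (Int.mul_ediv_cancel' (hd' f)).symm

/-- orders of polynomials -/
theorem ord_poly' {x : N} (b : κ) (p : κ[X]) (hp : p ≠ 0) (hx : Transcendental κ x)
    (W : Place κ N) (hW : 0 < W.ord (x - algebraMap κ N b)) :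
    W.ord (aeval x p) = (p.rootMultiplicity b : ℤ) * W.ord (x - algebraMap κ N b) := by
  obtain ⟨q, hq, hq'⟩ := exists_eq_pow_rootMultiplicity_mul_and_not_dvd p hp b
  have hxe : x - algebraMap κ N b ≠ 0 := by
    intro h; rw [h, W.ord_zero] at hW; exact lt_irrefl _ hW
  have hq0 : aeval x q ≠ 0 := by
    intro h
    have : q = 0 := by
      by_contra h0
      exact hx ⟨q, h0, h⟩
    rw [this] at hq'
    exact hq' (dvd_zero _)
  have hqe : q.eval b ≠ 0 := by
    intro h
    exact hq' (dvd_iff_isRoot.2 h)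
  have hWx : W.Reg x := reg_of_pos hW
  have hq1 : W.ord (aeval x q) = 0 := by
    obtain ⟨g, hg⟩ := X_sub_C_dvd_sub_C_eval (a := b) (p := q)
    have h2 : aeval x q = algebraMap κ N (q.eval b) + (x - algebraMap κ N b) * aeval x g := by
      have h3 : q = C (q.eval b) + (X - C b) * g := by rw [← hg]; ring
      conv_lhs => rw [h3]
      rw [map_add, map_mul, map_sub, aeval_C, aeval_C, aeval_X]
    have hc : algebraMap κ N (q.eval b) ≠ 0 := (_root_.map_ne_zero _).2 hqe
    by_cases hg0 : aeval x g = 0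
    · rw [h2, hg0, mul_zero, add_zero, W.ord_const hqe]
    · have h4 : W.ord (algebraMap κ N (q.eval b)) < W.ord ((x - algebraMap κ N b) * aeval x g) := by
        rw [W.ord_const hqe, W.ord_mul hxe hg0]
        have := (W.reg_iff hg0).1 (reg_aeval hWx g)
        omega
      rw [h2, (W.ord_add_eq hc (mul_ne_zero hxe hg0) h4).2, W.ord_const hqe]
  conv_lhs => rw [hq]
  rw [map_mul, map_pow, map_sub, aeval_C, aeval_X, W.ord_mul (pow_ne_zero _ hxe) hq0, hq1,
    W.ord_pow, add_zero]

end restrict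

section kummer

variable {κ : Type} [Field κ] [IsAlgClosed κ] [CharZero κ]

/-- a polynomial all of whose multiplicities are divisible by `ℓ` is an `ℓ`-th power -/
theorem exists_pow (ℓ : ℕ) (hℓ : 0 < ℓ) (p : κ[X]) (hp : p ≠ 0)
    (h : ∀ b, ℓ ∣ p.rootMultiplicity b) : ∃ q : κ[X], p = q ^ ℓ := by
  classical
  have h1 : p = C p.leadingCoeff * (p.roots.map (fun a => X - C a)).prod :=
    (IsAlgClosed.splits p).eq_prod_roots
  obtain ⟨c, hc⟩ := IsAlgClosed.exists_pow_nat_eq p.leadingCoeff hℓ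
  choose m hm using h
  refine ⟨C c * ∏ b ∈ p.roots.toFinset, (X - C b) ^ m b, ?_⟩
  rw [mul_pow, ← C_pow, hc, ← Finset.prod_pow]
  conv_lhs => rw [h1]
  congr 1
  rw [Finset.prod_multiset_map_count]
  refine Finset.prod_congr rfl fun b _ => ?_
  rw [← pow_mul, count_roots, hm b, mul_comm]

theorem exists_psi (ℓ : ℕ) [Fact ℓ.Prime] :
    ∃ ψ : Multiplicative (ZMod ℓ) →* κˣ, Function.Injective ψ := by
  have hℓ : 0 < ℓ := (Fact.out : ℓ.Prime).pos
  haveI : NeZero ℓ := ⟨hℓ.ne'⟩
  obtain ⟨ζ, hζ⟩ : ∃ ζ : κ, IsPrimitiveRoot ζ ℓ := HasEnoughRootsOfUnity.exists_primitiveRoot κ ℓ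
  have hζ0 : ζ ≠ 0 := hζ.ne_zero hℓ.ne'
  have hζu : IsPrimitiveRoot (Units.mk0 ζ hζ0) ℓ := by
    rw [← IsPrimitiveRoot.coe_units_iff]
    exact hζ
  let e := hζu.zmodEquivZPowers
  refine ⟨{ toFun := fun a => ((Additive.toMul (e a.toAdd) : Subgroup.zpowers (Units.mk0 ζ hζ0)) : κˣ)
            map_one' := ?_
            map_mul' := ?_ }, ?_⟩
  · rw [toAdd_one, map_zero, toMul_zero]
    rfl
  · intro a b
    rw [toAdd_mul, map_add, toMul_add]
    rfl
  · intro a b hab
    have h1 : e a.toAdd = e b.toAdd := Additive.toMul.injective (Subtype.ext hab)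
    exact Multiplicative.toAdd.injective (e.injective h1)

variable {R N : Type} [Field R] [Field N] [Algebra κ R] [Algebra κ N] [Algebra R N]
  [IsScalarTower κ R N] [FiniteDimensional R N] [IsGalois R N]

theorem exists_kummer (ψ : (N ≃ₐ[R] N) →* κˣ) :
    ∃ z : N, z ≠ 0 ∧ ∀ σ : N ≃ₐ[R] N, σ z = algebraMap κ N (ψ σ) * z := by
  let f : (N ≃ₐ[R] N) → Nˣ := fun σ => Units.map (algebraMap κ N : κ →* N) (ψ σ)
  have hc : ∀ (g : N ≃ₐ[R] N) (c : κ), g (algebraMap κ N c) = algebraMap κ N c := by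
    intro g c
    rw [IsScalarTower.algebraMap_apply κ R N, g.commutes]
  have hf : groupCohomology.IsMulCocycle₁ f := by
    intro g h
    apply Units.ext
    rw [Units.val_mul]
    have h1 : ((g • f h : Nˣ) : N) = g (f h : N) := rfl
    rw [h1]
    change algebraMap κ N (ψ (g * h) : κˣ) = g (algebraMap κ N (ψ h : κˣ)) *
      algebraMap κ N (ψ g : κˣ)
    rw [hc, map_mul, Units.val_mul, map_mul, mul_comm]
  obtain ⟨β, hβ⟩ := groupCohomology.isMulCoboundary₁_of_isMulCocycle₁_of_aut_to_units f hf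
  refine ⟨(β : N), β.ne_zero, fun σ => ?_⟩
  have h1 := hβ σ
  rw [div_eq_iff_eq_mul] at h1
  have h2 := congrArg (Units.val) h1
  rw [Units.val_mul] at h2
  exact h2

end kummer

section main

variable {κ R N : Type} [Field κ] [IsAlgClosed κ] [CharZero κ] [Field R] [Field N] [Algebra κ R]
  [Algebra κ N] [Algebra R N] [IsScalarTower κ R N]

/-- the degree over `κ(x - b)` -/
theorem finrank_le {x : R} (hx : RatF κ x) [FiniteDimensional R N] (b : κ) :
    Module.finrank (IntermediateField.adjoin κ {algebraMap R N x - algebraMap κ N b}) N ≤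
      Module.finrank R N := by
  set y := algebraMap R N x - algebraMap κ N b with hy
  have h4 : (IntermediateField.adjoin κ {x}).map (IsScalarTower.toAlgHom κ R N) =
      IntermediateField.adjoin κ {algebraMap R N x} := by
    rw [IntermediateField.adjoin_map, Set.image_singleton]; rfl
  have h5 : IntermediateField.adjoin κ {algebraMap R N x} ≤ IntermediateField.adjoin κ {y} := by
    rw [IntermediateField.adjoin_simple_le_iff]
    have h6 : algebraMap R N x = y + algebraMap κ N b := by rw [hy]; ring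
    rw [h6]
    exact add_mem (IntermediateField.mem_adjoin_simple_self κ y)
      (IntermediateField.algebraMap_mem _ b)
  have h2 : ∀ z : R, algebraMap R N z ∈ IntermediateField.adjoin κ {y} := by
    intro z
    have h3 : z ∈ IntermediateField.adjoin κ {x} := by rw [hx.gen]; trivial
    apply h5
    rw [← h4]
    exact ⟨z, h3, rfl⟩
  let L := IntermediateField.adjoin κ {y}
  let i : R →+* L := (algebraMap R N).codRestrict L.toSubfield.toSubring h2
  letI : Algebra R L := i.toAlgebra
  haveI : IsScalarTower R L N := IsScalarTower.of_algebraMap_eq fun z => rfl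
  haveI : FiniteDimensional L N := FiniteDimensional.right R L N
  haveI : FiniteDimensional R L := FiniteDimensional.left R L N
  have h6 : Module.finrank R L * Module.finrank L N = Module.finrank R N :=
    Module.finrank_mul_finrank R L N
  exact Nat.le_of_dvd Module.finrank_pos ⟨Module.finrank R L, by rw [← h6, mul_comm]⟩

theorem trans_sub {x : R} (hx : RatF κ x) (b : κ) :
    Transcendental κ (algebraMap R N x - algebraMap κ N b) := by
  have h1 : Transcendental κ (algebraMap R N x) := by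
    rw [transcendental_algebraMap_iff (algebraMap R N).injective]
    exact hx.trans
  intro h
  apply h1
  have h2 := h.add (isAlgebraic_algebraMap (R := κ) (A := N) b)
  rwa [sub_add_cancel] at h2

/-- a Kummer element gives a point with multiplicity prime to `ℓ` -/
theorem exists_point (ℓ : ℕ) [Fact ℓ.Prime] {x : R} (hx : RatF κ x) (z : N) (hz : z ≠ 0) (h : R)
    (hzh : z ^ ℓ = algebraMap R N h) (hzR : ∀ r : R, algebraMap R N r ≠ z) :
    ∃ (r : R) (p : κ[X]) (b : κ), p ≠ 0 ∧ r ≠ 0 ∧ (z * algebraMap R N r) ^ ℓ =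
      aeval (algebraMap R N x) p ∧ ¬ ℓ ∣ p.rootMultiplicity b := by
  have hℓ : 0 < ℓ := (Fact.out : ℓ.Prime).pos
  haveI : NeZero ℓ := ⟨hℓ.ne'⟩
  obtain ⟨p, q, hq, hpq⟩ := hx.exists_div h
  have hP : (z * algebraMap R N (aeval x q)) ^ ℓ = aeval (algebraMap R N x) (p * q ^ (ℓ - 1)) := by
    rw [mul_pow, hzh, hpq, ← map_pow, ← map_mul, aeval_algebraMap_apply]
    congr 1
    rw [map_mul, map_pow]
    obtain ⟨m, rfl⟩ : ∃ m, ℓ = m + 1 := ⟨ℓ - 1, by omega⟩
    rw [Nat.add_sub_cancel, pow_succ]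
    field_simp
  have hq' : algebraMap R N (aeval x q) ≠ 0 := (_root_.map_ne_zero _).2 hq
  have hP0 : p * q ^ (ℓ - 1) ≠ 0 := by
    intro h0
    rw [h0, map_zero] at hP
    exact pow_ne_zero ℓ (mul_ne_zero hz hq') hP
  by_contra hcon
  push Not at hcon
  obtain ⟨Q, hQ⟩ := exists_pow ℓ hℓ (p * q ^ (ℓ - 1)) hP0
    (fun b => hcon (aeval x q) _ b hP0 hq hP)
  rw [hQ, map_pow] at hP
  -- the quotient is a root of unity
  obtain ⟨ζ, hζ⟩ : ∃ ζ : κ, IsPrimitiveRoot ζ ℓ := HasEnoughRootsOfUnity.exists_primitiveRoot κ ℓ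
  have hζN : IsPrimitiveRoot (algebraMap κ N ζ) ℓ :=
    hζ.map_of_injective (algebraMap κ N).injective
  have hQ0 : aeval (algebraMap R N x) Q ≠ 0 := by
    intro h0
    rw [h0, zero_pow hℓ.ne'] at hP
    exact pow_ne_zero ℓ (mul_ne_zero hz hq') hP
  obtain ⟨i, hi, hi'⟩ := hζN.eq_pow_of_pow_eq_one
    (ξ := z * algebraMap R N (aeval x q) / aeval (algebraMap R N x) Q) (by
      rw [div_pow, hP, div_self (pow_ne_zero ℓ hQ0)])
  apply hzR (algebraMap κ R ζ ^ i * aeval x Q / aeval x q)
  rw [map_div₀, map_mul, map_pow, ← IsScalarTower.algebraMap_apply, hi',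
    ← aeval_algebraMap_apply N x Q, div_mul_cancel₀ _ hQ0, mul_div_cancel_right₀ _ hq']

end main

end Pool.Agent.Y529.PS.TB

namespace Pool.Agent.Y529.PS

open Pool.Agent.Y157.PS TB

theorem t1b (hC : S_CONJ) : S_T1B := by
  intro ℓ _ κ R N _ _ _ _ _ _ _ _ _ _ _ _ x hx χ hχ
  have hℓp : ℓ.Prime := Fact.out
  have hℓ : 0 < ℓ := hℓp.pos
  haveI : NeZero ℓ := ⟨hℓ.ne'⟩
  obtain ⟨ψ, hψ⟩ := exists_psi (κ := κ) ℓ
  obtain ⟨z, hz0, hz⟩ := exists_kummer (κ := κ) (R := R) (N := N) (ψ.comp χ)
  obtain ⟨g, hg⟩ : ∃ g, χ g ≠ 1 := by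
    by_contra hcon
    push Not at hcon
    exact hχ (MonoidHom.ext hcon)
  have hψl : ∀ σ, (((ψ.comp χ) σ : κˣ) : κ) ^ ℓ = 1 := by
    intro σ
    have h1 : (χ σ) ^ ℓ = 1 := by
      apply Multiplicative.toAdd.injective
      rw [toAdd_pow, toAdd_one, nsmul_eq_mul, ZMod.natCast_self, zero_mul]
    rw [← Units.val_pow_eq_pow_val, MonoidHom.comp_apply, ← map_pow, h1, map_one, Units.val_one]
  have hzl : z ^ ℓ ∈ (⊥ : IntermediateField R N) := by
    rw [IsGalois.mem_bot_iff_fixed]
    intro σ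
    rw [map_pow, hz, mul_pow, ← map_pow, hψl, map_one, one_mul]
  obtain ⟨h, hh⟩ := IntermediateField.mem_bot.1 hzl
  let H : Subgroup (N ≃ₐ[R] N) := χ.ker
  let R' : IntermediateField R N := IntermediateField.fixedField H
  have hzR' : z ∈ R' := by
    rw [IntermediateField.mem_fixedField_iff]
    intro σ hσ
    have h1 : χ σ = 1 := hσ
    rw [hz, MonoidHom.comp_apply, h1, map_one, Units.val_one, map_one, one_mul]
  have hdeg : Module.finrank R R' ≤ ℓ := by
    have h1 : Module.finrank R R' = H.index := by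
      rw [IntermediateField.finrank_eq_fixingSubgroup_index,
        IntermediateField.fixingSubgroup_fixedField]
    rw [h1, Subgroup.index_ker]
    calc Nat.card χ.range ≤ Nat.card (Multiplicative (ZMod ℓ)) :=
          Nat.card_le_card_of_injective (fun a => (a : Multiplicative (ZMod ℓ)))
            Subtype.val_injective
      _ = Nat.card (ZMod ℓ) := Nat.card_congr Multiplicative.toAdd
      _ = ℓ := Nat.card_zmod ℓ
  obtain ⟨r, p, b, hp0, hr0, hrp, hb⟩ := exists_point ℓ hx (⟨z, hzR'⟩ : R')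
    (fun h0 => hz0 (congrArg Subtype.val h0)) h (Subtype.ext (by
      change z ^ ℓ = algebraMap R N h
      exact hh.symm))
    (fun r hr => by
      have h1 : algebraMap R N r = z := congrArg Subtype.val hr
      have h2 := hz g
      rw [← h1, g.commutes, h1] at h2
      have h3 : algebraMap κ N (((ψ.comp χ) g : κˣ) : κ) = 1 := by
        apply mul_right_cancel₀ hz0
        rw [← h2, one_mul]
      have h4 : (((ψ.comp χ) g : κˣ) : κ) = 1 := by
        apply (algebraMap κ N).injective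
        rw [h3, map_one]
      apply hg
      apply hψ
      rw [map_one]
      exact Units.ext h4)
  haveI : FiniteDimensional R R' := inferInstance
  haveI : IsFF κ R' := hx.isFF
  obtain ⟨S, hS, hS2, hS3⟩ := zeros (trans_sub (N := R') hx b)
  set y : R' := algebraMap R R' x - algebraMap κ R' b with hy
  have hcard : S.card ≤ 1 := by
    have h1 : S.card * ℓ ≤ ∑ w ∈ S, (w.ord y).toNat * w.deg := by
      rw [← smul_eq_mul]
      apply Finset.card_nsmul_le_sum
      intro v hv
      have hv0 := (hS v).1 hv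
      have h2 := ord_poly' b p hp0 (by
        rw [transcendental_algebraMap_iff (algebraMap R R').injective]
        exact hx.trans) v hv0
      rw [← hrp, v.ord_pow] at h2
      have h3 : (ℓ : ℤ) ∣ v.ord y := by
        have h4 : (ℓ : ℤ) ∣ (p.rootMultiplicity b : ℤ) * v.ord y := ⟨_, h2.symm⟩
        rcases (Nat.prime_iff_prime_int.1 hℓp).dvd_or_dvd h4 with h5 | h5
        · exact absurd (Int.natCast_dvd_natCast.1 h5) hb
        · exact h5
      have h6 : (ℓ : ℤ) ≤ v.ord y := Int.le_of_dvd hv0 h3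
      have h7 : ℓ ≤ (v.ord y).toNat := by omega
      exact le_mul_of_le_of_one_le h7 (hS2 v hv)
    rw [hS3] at h1
    have h2 : S.card * ℓ ≤ 1 * ℓ := by
      rw [one_mul]
      exact h1.trans ((finrank_le (N := R') hx b).trans hdeg)
    exact Nat.le_of_mul_le_mul_right h2 hℓ
  -- a place of `N` above `b`
  obtain ⟨w, hw⟩ : ∃ w : Place κ N, 0 < w.ord (algebraMap R N x - algebraMap κ N b) := by
    obtain ⟨T, hT, hT2, hT3⟩ := zeros (trans_sub (N := N) hx b)
    have hpos : 0 < Module.finrank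
        (IntermediateField.adjoin κ {algebraMap R N x - algebraMap κ N b}) N := by
      haveI := IsFF.finite (k := κ) (K := N) (trans_sub (N := N) hx b)
      exact Module.finrank_pos
    rw [← hT3] at hpos
    obtain ⟨w, hw⟩ : T.Nonempty := by
      by_contra hne
      rw [Finset.not_nonempty_iff_eq_empty] at hne
      rw [hne, Finset.sum_empty] at hpos
      exact lt_irrefl _ hpos
    exact ⟨w, (hT w).1 hw⟩
  have hgc : ∀ c : κ, (g : N ≃+* N) (algebraMap κ N c) = algebraMap κ N (RingEquiv.refl κ c) := by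
    intro c
    change g (algebraMap κ N c) = algebraMap κ N c
    rw [IsScalarTower.algebraMap_apply κ R N, g.commutes]
  let w' : Place κ N := Pool.Agent.Y157.PS.Place.comapEquiv w (g : N ≃+* N) (RingEquiv.refl κ) hgc
  have hw'0 : ∀ z, w'.ord z = w.ord (g z) := fun z => rfl
  have hw' : 0 < w'.ord (algebraMap R N x - algebraMap κ N b) := by
    rw [hw'0, map_sub, g.commutes]
    have h1 : g (algebraMap κ N b) = algebraMap κ N b := hgc b
    rw [h1]
    exact hw
  let i : R' →ₐ[κ] N := R'.val.restrictScalars κ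
  have hi : ∀ f : R', i f = (f : N) := fun f => rfl
  have hiy : i y = algebraMap R N x - algebraMap κ N b := rfl
  obtain ⟨v, e, he, hv⟩ := exists_restrict i w ⟨y, by rw [hiy]; exact hw.ne'⟩
  obtain ⟨v', e', he', hv'⟩ := exists_restrict i w' ⟨y, by rw [hiy]; exact hw'.ne'⟩
  have hvS : v ∈ S := by
    rw [hS]
    have h1 := hv y
    rw [hiy] at h1
    rw [h1] at hw
    exact (mul_pos_iff_of_pos_left he).1 hw
  have hvS' : v' ∈ S := by
    rw [hS]
    have h1 := hv' y
    rw [hiy] at h1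
    rw [h1] at hw'
    exact (mul_pos_iff_of_pos_left he').1 hw'
  have hvv : v = v' := Finset.card_le_one.1 hcard v hvS v' hvS'
  have hcomap : w.O.comap (algebraMap R' N) = w'.O.comap (algebraMap R' N) := by
    ext f
    rw [ValuationSubring.mem_comap, ValuationSubring.mem_comap, Place.mem_O, Place.mem_O]
    by_cases hf : f = 0
    · rw [hf, map_zero]
      exact ⟨fun _ => w'.reg_zero, fun _ => w.reg_zero⟩
    have hf' : algebraMap R' N f ≠ 0 := (_root_.map_ne_zero _).2 hf
    have h1 : w.ord (algebraMap R' N f) = e * v.ord f := hv f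
    have h2 : w'.ord (algebraMap R' N f) = e' * v.ord f := by rw [hvv]; exact hv' f
    rw [w.reg_iff hf', w'.reg_iff hf', h1, h2, mul_nonneg_iff_of_pos_left he,
      mul_nonneg_iff_of_pos_left he']
  obtain ⟨γ, hγ⟩ := hC R' N w.O w'.O hcomap
  refine ⟨w, (γ.restrictScalars R) * g⁻¹, ?_, ?_⟩
  · have h1 : Fixes w (((γ.restrictScalars R) * g⁻¹ : N ≃ₐ[R] N).restrictScalars κ) := by
      apply fixes_of_O
      intro y
      change γ (g⁻¹ y) ∈ w.O ↔ y ∈ w.O
      rw [← hγ, Place.mem_O, Place.mem_O]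
      have h2 : g (g⁻¹ y) = y := by
        rw [← AlgEquiv.mul_apply, mul_inv_cancel, AlgEquiv.one_apply]
      by_cases hy0 : y = 0
      · rw [hy0, map_zero]
        exact ⟨fun _ => w.reg_zero, fun _ => w'.reg_zero⟩
      rw [w.reg_iff hy0, w'.reg_iff ((map_ne_zero_iff _ (g⁻¹).injective).2 hy0), hw'0, h2]
    exact h1
  · rw [map_mul, map_inv]
    have h1 : γ.restrictScalars R ∈ H := by
      rw [← IntermediateField.fixingSubgroup_fixedField H,
        IntermediateField.mem_fixingSubgroup_iff]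
      intro f hf
      exact γ.commutes ⟨f, hf⟩
    have h2 : χ (γ.restrictScalars R) = 1 := h1
    rw [h2, one_mul]
    exact inv_ne_one.2 hg

end Pool.Agent.Y529.PS
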